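import Mathlib

set_option autoImplicit false

namespace Pool.Agent.Helper20.RU

open Nat.Partrec

section tools

variable {α β : Type} [Primcodable α] [Primcodable β]

theorem swapRel {R : α → β → Prop} (hR : PrimrecRel R) : PrimrecRel fun (b : β) (a : α) => R a b :=
  PrimrecPred.comp (p := fun p : α × β => R p.1 p.2) (f := fun p : β × α => (p.2, p.1)) hR
    (Primrec.pair Primrec.snd Primrec.fst)

theorem ex_mem {f : α → List β} {Q : α → β → Prop} (hf : Primrec f) (hQ : PrimrecRel Q) :
    PrimrecPred fun a => ∃ b ∈ f a, Q a b :=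
  PrimrecPred.comp (p := fun p : List β × α => ∃ b ∈ p.1, Q p.2 b)
    (f := fun a : α => (f a, a)) (PrimrecRel.exists_mem_list (swapRel hQ))
    (Primrec.pair hf Primrec.id)

theorem all_mem {f : α → List β} {Q : α → β → Prop} (hf : Primrec f) (hQ : PrimrecRel Q) :
    PrimrecPred fun a => ∀ b ∈ f a, Q a b :=
  PrimrecPred.comp (p := fun p : List β × α => ∀ b ∈ p.1, Q p.2 b)
    (f := fun a : α => (f a, a)) (PrimrecRel.forall_mem_list (swapRel hQ))
    (Primrec.pair hf Primrec.id)

theorem ex_lt {f : α → ℕ} {Q : α → ℕ → Prop} (hf : Primrec f) (hQ : PrimrecRel Q) :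
    PrimrecPred fun a => ∃ x < f a, Q a x :=
  (ex_mem (Primrec.list_range.comp hf) hQ).of_eq fun a => by simp

theorem all_lt {f : α → ℕ} {Q : α → ℕ → Prop} (hf : Primrec f) (hQ : PrimrecRel Q) :
    PrimrecPred fun a => ∀ x < f a, Q a x :=
  (all_mem (Primrec.list_range.comp hf) hQ).of_eq fun a => by simp

theorem imp_pred {p q : α → Prop} (hp : PrimrecPred p) (hq : PrimrecPred q) :
    PrimrecPred fun a => p a → q a :=
  (hp.not.or hq).of_eq fun a => by
    constructor
    · rintro (h | h) h'
      · exact absurd h' h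
      · exact h
    · intro h
      by_cases h' : p a
      · exact Or.inr (h h')
      · exact Or.inl h'

theorem iff_pred {p q : α → Prop} (hp : PrimrecPred p) (hq : PrimrecPred q) :
    PrimrecPred fun a => (p a ↔ q a) :=
  ((imp_pred hp hq).and (imp_pred hq hp)).of_eq fun a => by
    constructor
    · rintro ⟨h, h'⟩
      exact ⟨h, h'⟩
    · rintro ⟨h, h'⟩
      exact ⟨h, h'⟩

theorem primrec_pow : Primrec₂ fun a b : ℕ => a ^ b :=
  Primrec₂.unpaired'.1 Nat.Primrec.pow

end tools

/-- The digit of `g` at the place `x` in base `c`. -/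
def dig (c g x : ℕ) : ℕ := (g / c ^ x) % c

theorem primrec_dig {α : Type} [Primcodable α] {c g x : α → ℕ} (hc : Primrec c)
    (hg : Primrec g) (hx : Primrec x) : Primrec fun a => dig (c a) (g a) (x a) :=
  Primrec.nat_mod.comp (Primrec.nat_div.comp hg (primrec_pow.comp hc hx)) hc

/-- Requirements: a number of colours, a bound and a list of pairs (tree, functional). -/
abbrev Req : Type := ℕ × ℕ × List (ℕ × Code)

/-- The functional `o` gives the answer one on the place `y` and the finite set `d`, within `s`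
steps and with the use at most `s`. -/
def Conv (s : ℕ) (o : Code) (d y : ℕ) : Prop :=
  ∃ k < s + 1, Code.evaln s o (Encodable.encode ((List.range k).map fun x => dig 2 d x, y))
    = some 1

theorem primrec_conv {α : Type} [Primcodable α] {s : α → ℕ} {o : α → Code} {d y : α → ℕ}
    (hs : Primrec s) (ho : Primrec o) (hd : Primrec d) (hy : Primrec y) :
    PrimrecPred fun a => Conv (s a) (o a) (d a) (y a) := by
  refine ex_lt (Primrec.succ.comp hs) ?_
  have h1 : Primrec fun p : α × ℕ => (List.range p.2).map fun x => dig 2 (d p.1) x := by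
    refine Primrec.list_map (Primrec.list_range.comp Primrec.snd) ?_
    exact primrec_dig (Primrec.const 2) (hd.comp (Primrec.fst.comp Primrec.fst)) Primrec.snd
  have h2 : Primrec fun p : α × ℕ => Code.evaln (s p.1) (o p.1)
      (Encodable.encode ((List.range p.2).map fun x => dig 2 (d p.1) x, y p.1)) :=
    Code.primrec_evaln.comp (Primrec.pair (Primrec.pair (hs.comp Primrec.fst)
      (ho.comp Primrec.fst)) (Primrec.encode.comp (Primrec.pair h1 (hy.comp Primrec.fst))))
  exact Primrec.eq.comp h2 (Primrec.const (some 1))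

/-- The finite colouring `u` kills the requirement with the number of colours `ρ.1` on the window
from `r` to `s`: for every finite colouring `g` there are a set `d` of one colour and a functional
in the list whose output on `d` meets two values. -/
def Kill (ρ : Req) (r s u : ℕ) : Prop :=
  ∀ g < ρ.1 ^ s, ∃ d < 2 ^ s,
    (∃ i < ρ.1, ∀ x < s, dig 2 d x = 1 → ρ.2.1 ≤ x ∧ dig ρ.1 g x = i) ∧
    ∃ b ∈ ρ.2.2, ∃ y < s, ∃ y' < s, r ≤ Nat.pair b.1 y ∧ Nat.pair b.1 y < s ∧
      r ≤ Nat.pair b.1 y' ∧ Nat.pair b.1 y' < s ∧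
      dig 2 u (Nat.pair b.1 y) ≠ dig 2 u (Nat.pair b.1 y') ∧
      Conv s b.2 d y ∧ Conv s b.2 d y'

theorem primrec_kill {α : Type} [Primcodable α] {ρ : α → Req} {r s u : α → ℕ}
    (hρ : Primrec ρ) (hr : Primrec r) (hs : Primrec s) (hu : Primrec u) :
    PrimrecPred fun a => Kill (ρ a) (r a) (s a) (u a) := by
  have hc : Primrec fun a => (ρ a).1 := Primrec.fst.comp hρ
  have hm : Primrec fun a => (ρ a).2.1 := Primrec.fst.comp (Primrec.snd.comp hρ)
  have hL : Primrec fun a => (ρ a).2.2 := Primrec.snd.comp (Primrec.snd.comp hρ)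
  refine all_lt (primrec_pow.comp hc hs) ?_
  refine ex_lt (primrec_pow.comp (Primrec.const 2) (hs.comp Primrec.fst)) ?_
  refine PrimrecPred.and ?_ ?_
  · refine ex_lt (hc.comp (Primrec.fst.comp Primrec.fst)) ?_
    refine all_lt (hs.comp (Primrec.fst.comp (Primrec.fst.comp Primrec.fst))) ?_
    -- the point is `((((a, g), d), i), x)`
    have ha : Primrec fun p : (((α × ℕ) × ℕ) × ℕ) × ℕ => p.1.1.1.1 :=
      Primrec.fst.comp (Primrec.fst.comp (Primrec.fst.comp Primrec.fst))
    have hg : Primrec fun p : (((α × ℕ) × ℕ) × ℕ) × ℕ => p.1.1.1.2 :=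
      Primrec.snd.comp (Primrec.fst.comp (Primrec.fst.comp Primrec.fst))
    have hd : Primrec fun p : (((α × ℕ) × ℕ) × ℕ) × ℕ => p.1.1.2 :=
      Primrec.snd.comp (Primrec.fst.comp Primrec.fst)
    have hi : Primrec fun p : (((α × ℕ) × ℕ) × ℕ) × ℕ => p.1.2 :=
      Primrec.snd.comp Primrec.fst
    have hx : Primrec fun p : (((α × ℕ) × ℕ) × ℕ) × ℕ => p.2 := Primrec.snd
    refine imp_pred ?_ (PrimrecPred.and ?_ ?_)
    · exact Primrec.eq.comp (primrec_dig (Primrec.const 2) hd hx) (Primrec.const 1)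
    · exact Primrec.nat_le.comp (hm.comp ha) hx
    · exact Primrec.eq.comp (primrec_dig (hc.comp ha) hg hx) hi
  · refine ex_mem (hL.comp (Primrec.fst.comp Primrec.fst)) ?_
    refine ex_lt (hs.comp (Primrec.fst.comp (Primrec.fst.comp Primrec.fst))) ?_
    refine ex_lt (hs.comp (Primrec.fst.comp (Primrec.fst.comp (Primrec.fst.comp
      Primrec.fst)))) ?_
    -- the point is `(((((a, g), d), b), y), y')`
    have ha : Primrec fun p : ((((α × ℕ) × ℕ) × (ℕ × Code)) × ℕ) × ℕ => p.1.1.1.1.1 :=
      Primrec.fst.comp (Primrec.fst.comp (Primrec.fst.comp (Primrec.fst.comp Primrec.fst)))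
    have hd : Primrec fun p : ((((α × ℕ) × ℕ) × (ℕ × Code)) × ℕ) × ℕ => p.1.1.1.2 :=
      Primrec.snd.comp (Primrec.fst.comp (Primrec.fst.comp Primrec.fst))
    have hb : Primrec fun p : ((((α × ℕ) × ℕ) × (ℕ × Code)) × ℕ) × ℕ => p.1.1.2 :=
      Primrec.snd.comp (Primrec.fst.comp Primrec.fst)
    have hy : Primrec fun p : ((((α × ℕ) × ℕ) × (ℕ × Code)) × ℕ) × ℕ => p.1.2 :=
      Primrec.snd.comp Primrec.fst
    have hy' : Primrec fun p : ((((α × ℕ) × ℕ) × (ℕ × Code)) × ℕ) × ℕ => p.2 := Primrec.snd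
    have hp : Primrec fun p : ((((α × ℕ) × ℕ) × (ℕ × Code)) × ℕ) × ℕ =>
        Nat.pair p.1.1.2.1 p.1.2 := Primrec₂.natPair.comp (Primrec.fst.comp hb) hy
    have hp' : Primrec fun p : ((((α × ℕ) × ℕ) × (ℕ × Code)) × ℕ) × ℕ =>
        Nat.pair p.1.1.2.1 p.2 := Primrec₂.natPair.comp (Primrec.fst.comp hb) hy'
    refine (Primrec.nat_le.comp (hr.comp ha) hp).and ((Primrec.nat_lt.comp hp (hs.comp ha)).and
      ((Primrec.nat_le.comp (hr.comp ha) hp').and ((Primrec.nat_lt.comp hp' (hs.comp ha)).and
      (PrimrecPred.and ?_ (PrimrecPred.and ?_ ?_)))))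
    · exact (Primrec.eq.comp (primrec_dig (Primrec.const 2) (hu.comp ha) hp)
        (primrec_dig (Primrec.const 2) (hu.comp ha) hp')).not
    · exact primrec_conv (hs.comp ha) (Primrec.snd.comp hb) hd hy
    · exact primrec_conv (hs.comp ha) (Primrec.snd.comp hb) hd hy'

/-- Actions: the beginning and the end of a window, a requirement and a finite colouring. -/
abbrev Act : Type := ℕ × ℕ × ℕ × ℕ

/-- The colouring `b` agrees with `a` on the window from `r` to `s`, up to a change of the two
values in every coordinate. -/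
def Sim {β : Type} (r s : ℕ) (a : ℕ → ℕ) (b : ℕ → β) : Prop :=
  ∀ x < s, ∀ x' < s, r ≤ x → r ≤ x' → x.unpair.1 = x'.unpair.1 → (b x = b x' ↔ a x = a x')

/-- The finite colouring `u` obeys all the actions in the list. -/
def OK (h : List Act) (u : ℕ) : Prop :=
  ∀ a ∈ h, Sim a.1 a.2.1 (dig 2 a.2.2.2) (dig 2 u)

theorem primrec_ok {α : Type} [Primcodable α] {h : α → List Act} {u : α → ℕ}
    (hh : Primrec h) (hu : Primrec u) : PrimrecPred fun a => OK (h a) (u a) := by
  refine all_mem hh ?_
  refine all_lt (Primrec.fst.comp (Primrec.snd.comp Primrec.snd)) ?_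
  refine all_lt (Primrec.fst.comp (Primrec.snd.comp (Primrec.snd.comp Primrec.fst))) ?_
  -- the point is `(((a, act), x), x')`
  have ha : Primrec fun p : ((α × Act) × ℕ) × ℕ => p.1.1.1 :=
    Primrec.fst.comp (Primrec.fst.comp Primrec.fst)
  have hact : Primrec fun p : ((α × Act) × ℕ) × ℕ => p.1.1.2 :=
    Primrec.snd.comp (Primrec.fst.comp Primrec.fst)
  have hx : Primrec fun p : ((α × Act) × ℕ) × ℕ => p.1.2 := Primrec.snd.comp Primrec.fst
  have hx' : Primrec fun p : ((α × Act) × ℕ) × ℕ => p.2 := Primrec.snd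
  have hr : Primrec fun p : ((α × Act) × ℕ) × ℕ => p.1.1.2.1 := Primrec.fst.comp hact
  have hv : Primrec fun p : ((α × Act) × ℕ) × ℕ => p.1.1.2.2.2.2 :=
    Primrec.snd.comp (Primrec.snd.comp (Primrec.snd.comp hact))
  refine imp_pred (Primrec.nat_le.comp hr hx) (imp_pred (Primrec.nat_le.comp hr hx')
    (imp_pred ?_ (iff_pred ?_ ?_)))
  · exact Primrec.eq.comp (Primrec.fst.comp (Primrec.unpair.comp hx))
      (Primrec.fst.comp (Primrec.unpair.comp hx'))
  · exact Primrec.eq.comp (primrec_dig (Primrec.const 2) (hu.comp ha) hx)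
      (primrec_dig (Primrec.const 2) (hu.comp ha) hx')
  · exact Primrec.eq.comp (primrec_dig (Primrec.const 2) hv hx)
      (primrec_dig (Primrec.const 2) hv hx')

/-- The requirement with number `p`. -/
def req (p : ℕ) : Req := Denumerable.ofNat Req p

/-- The requirement `p` may act at the stage `s` with the window beginning at `r` and the finite
colouring `u`. -/
def Cand (s : ℕ) (h : List Act) (p u r : ℕ) : Prop :=
  (∀ a ∈ h, a.2.2.1 ≠ p) ∧ (∀ a ∈ h, a.2.2.1 < p → a.2.1 ≤ r) ∧
    (r = 0 ∨ ∃ a ∈ h, a.2.2.1 < p ∧ a.2.1 = r) ∧ OK h u ∧ Kill (req p) r s u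

theorem primrec_cand {α : Type} [Primcodable α] {s : α → ℕ} {h : α → List Act}
    {p u r : α → ℕ} (hs : Primrec s) (hh : Primrec h) (hp : Primrec p) (hu : Primrec u)
    (hr : Primrec r) : PrimrecPred fun a => Cand (s a) (h a) (p a) (u a) (r a) := by
  have hact : Primrec fun q : α × Act => q.2 := Primrec.snd
  have hS : Primrec fun q : α × Act => q.2.2.1 := Primrec.fst.comp (Primrec.snd.comp hact)
  have hP : Primrec fun q : α × Act => q.2.2.2.1 :=
    Primrec.fst.comp (Primrec.snd.comp (Primrec.snd.comp hact))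
  refine PrimrecPred.and ?_ (PrimrecPred.and ?_ (PrimrecPred.and (PrimrecPred.or ?_ ?_)
    (PrimrecPred.and ?_ ?_)))
  · refine all_mem hh ?_
    exact (Primrec.eq.comp hP (hp.comp Primrec.fst)).not
  · refine all_mem hh ?_
    exact imp_pred (Primrec.nat_lt.comp hP (hp.comp Primrec.fst))
      (Primrec.nat_le.comp hS (hr.comp Primrec.fst))
  · exact Primrec.eq.comp hr (Primrec.const 0)
  · refine ex_mem hh ?_
    exact (Primrec.nat_lt.comp hP (hp.comp Primrec.fst)).and
      (Primrec.eq.comp hS (hr.comp Primrec.fst))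
  · exact primrec_ok hh hu
  · exact primrec_kill ((Primrec.ofNat Req).comp hp) hr hs hu

/-- The number of the triples (requirement, colouring, beginning) looked at. -/
def bnd (s : ℕ) : ℕ := s * (2 ^ s * (s + 1))

/-- The three components of a coded triple. -/
def cp (s t : ℕ) : ℕ := t / (2 ^ s * (s + 1))

def cu (s t : ℕ) : ℕ := (t / (s + 1)) % 2 ^ s

def cr (s t : ℕ) : ℕ := t % (s + 1)

/-- The first triple which may act, or the bound if there is none. -/
noncomputable def firstT (s : ℕ) (h : List Act) : ℕ :=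
  open Classical in
  (List.range (bnd s)).findIdx fun t => decide (Cand s h (cp s t) (cu s t) (cr s t))

/-- One stage. -/
noncomputable def stage (s : ℕ) (h : List Act) : List Act :=
  if firstT s h < bnd s then
    (cr s (firstT s h), s, cp s (firstT s h), cu s (firstT s h)) :: h else h

/-- The actions before the stage `s`. -/
noncomputable def hist : ℕ → List Act
  | 0 => []
  | s + 1 => stage s (hist s)

theorem primrec_bnd : Primrec bnd :=
  Primrec.nat_mul.comp Primrec.id (Primrec.nat_mul.comp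
    (primrec_pow.comp (Primrec.const 2) Primrec.id) Primrec.succ)

theorem primrec_cp : Primrec₂ cp :=
  Primrec.nat_div.comp Primrec.snd (Primrec.nat_mul.comp
    (primrec_pow.comp (Primrec.const 2) Primrec.fst) (Primrec.succ.comp Primrec.fst))

theorem primrec_cu : Primrec₂ cu :=
  Primrec.nat_mod.comp (Primrec.nat_div.comp Primrec.snd (Primrec.succ.comp Primrec.fst))
    (primrec_pow.comp (Primrec.const 2) Primrec.fst)

theorem primrec_cr : Primrec₂ cr :=
  Primrec.nat_mod.comp Primrec.snd (Primrec.succ.comp Primrec.fst)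

theorem primrec_firstT : Primrec₂ firstT := by
  classical
  unfold firstT
  refine Primrec.list_findIdx (Primrec.list_range.comp (primrec_bnd.comp Primrec.fst)) ?_
  have hs : Primrec fun q : (ℕ × List Act) × ℕ => q.1.1 := Primrec.fst.comp Primrec.fst
  have hh : Primrec fun q : (ℕ × List Act) × ℕ => q.1.2 := Primrec.snd.comp Primrec.fst
  have h1 : PrimrecPred fun q : (ℕ × List Act) × ℕ =>
      Cand q.1.1 q.1.2 (cp q.1.1 q.2) (cu q.1.1 q.2) (cr q.1.1 q.2) :=
    primrec_cand hs hh (primrec_cp.comp hs Primrec.snd) (primrec_cu.comp hs Primrec.snd)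
      (primrec_cr.comp hs Primrec.snd)
  exact h1.decide

theorem primrec_stage : Primrec₂ stage := by
  have h1 : Primrec fun q : ℕ × List Act => firstT q.1 q.2 := primrec_firstT
  refine Primrec.ite (Primrec.nat_lt.comp h1 (primrec_bnd.comp Primrec.fst)) ?_ Primrec.snd
  exact Primrec.list_cons.comp (Primrec.pair (primrec_cr.comp Primrec.fst h1)
    (Primrec.pair Primrec.fst (Primrec.pair (primrec_cp.comp Primrec.fst h1)
      (primrec_cu.comp Primrec.fst h1)))) Primrec.snd

theorem primrec_hist : Primrec hist := by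
  have h1 : Primrec₂ fun (s : ℕ) (h : List Act) => stage s h := primrec_stage
  refine (Primrec.nat_rec₁ [] h1).of_eq fun n => ?_
  induction n with
  | zero => rfl
  | succ n ih =>
    change stage n _ = hist (n + 1)
    rw [ih]
    rfl

end Pool.Agent.Helper20.RU
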