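import Mathlib
import Pool.Agent.Helper20.RU.Comp

set_option autoImplicit false

namespace Pool.Agent.Helper20.RU

/-- Digits can be prescribed. -/
theorem exists_digits (c : ℕ) (a : ℕ → ℕ) (ha : ∀ x, a x < c) :
    ∀ s, ∃ g < c ^ s, ∀ x < s, dig c g x = a x := by
  have hc : 0 < c := (Nat.zero_le _).trans_lt (ha 0)
  intro s
  induction s with
  | zero => exact ⟨0, by simp, fun x hx => absurd hx (Nat.not_lt_zero x)⟩
  | succ s ih =>
    obtain ⟨g, hg, hgx⟩ := ih
    refine ⟨g + c ^ s * a s, ?_, fun x hx => ?_⟩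
    · have h1 : a s + 1 ≤ c := ha s
      calc g + c ^ s * a s < c ^ s + c ^ s * a s := by omega
        _ = c ^ s * (a s + 1) := by ring
        _ ≤ c ^ s * c := Nat.mul_le_mul_left _ h1
        _ = c ^ (s + 1) := (pow_succ c s).symm
    · rcases Nat.lt_succ_iff_lt_or_eq.1 hx with hx | rfl
      · unfold dig
        have h2 : c ^ s = c ^ x * (c * c ^ (s - x - 1)) := by
          rw [← pow_succ', ← pow_add]
          congr 1
          omega
        rw [h2, mul_assoc, Nat.add_mul_div_left _ _ (pow_pos hc x), mul_assoc,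
          Nat.add_mul_mod_self_left]
        exact hgx x hx
      · unfold dig
        rw [Nat.add_mul_div_left _ _ (pow_pos hc x), Nat.div_eq_of_lt hg, zero_add,
          Nat.mod_eq_of_lt (ha x)]

theorem dig_zero {c d s x : ℕ} (hc : 0 < c) (hd : d < c ^ s) (hx : s ≤ x) : dig c d x = 0 := by
  unfold dig
  rw [Nat.div_eq_of_lt (hd.trans_le (Nat.pow_le_pow_right hc hx)), Nat.zero_mod]

theorem dig_lt {c g x : ℕ} (hc : 0 < c) : dig c g x < c := Nat.mod_lt _ hc

/-- The first element of an initial segment with a property. -/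
theorem findIdx_range (N : ℕ) (P : ℕ → Bool) :
    ((List.range N).findIdx P < N → P ((List.range N).findIdx P) = true) ∧
      ∀ t < (List.range N).findIdx P, P t = false := by
  constructor
  · intro h
    have h1 : (List.range N).findIdx P < (List.range N).length := by
      rwa [List.length_range]
    have h2 := List.findIdx_getElem (w := h1)
    rwa [List.getElem_range] at h2
  · intro t ht
    have h1 := List.not_of_lt_findIdx ht
    rwa [List.getElem_range] at h1

theorem firstT_spec (s : ℕ) (h : List Act) (hlt : firstT s h < bnd s) :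
    Cand s h (cp s (firstT s h)) (cu s (firstT s h)) (cr s (firstT s h)) := by
  classical
  have h1 := (findIdx_range (bnd s)
    (fun t => decide (Cand s h (cp s t) (cu s t) (cr s t)))).1 hlt
  exact of_decide_eq_true h1

theorem firstT_le (s : ℕ) (h : List Act) {t : ℕ} (hc : Cand s h (cp s t) (cu s t) (cr s t)) :
    firstT s h ≤ t := by
  classical
  by_contra hcon
  have h1 := (findIdx_range (bnd s)
    (fun t => decide (Cand s h (cp s t) (cu s t) (cr s t)))).2 t (not_le.1 hcon)
  exact (of_decide_eq_false h1) hc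

/-- A candidate leads to an action of a requirement with at most the same number. -/
theorem act_of_cand {s : ℕ} {h : List Act} {p u r : ℕ} (hp : p < s) (hu : u < 2 ^ s)
    (hr : r ≤ s) (hc : Cand s h p u r) :
    ∃ a : Act, stage s h = a :: h ∧ a.2.1 = s ∧ a.2.2.1 ≤ p := by
  obtain ⟨t, ht⟩ : ∃ t, t = (p * 2 ^ s + u) * (s + 1) + r := ⟨_, rfl⟩
  have hpos : 0 < 2 ^ s := by positivity
  have h1 : cr s t = r := by
    unfold cr
    rw [ht, mul_comm, Nat.mul_add_mod_self_left, Nat.mod_eq_of_lt (by omega)]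
  have h2 : t / (s + 1) = p * 2 ^ s + u := by
    rw [ht, mul_comm (p * 2 ^ s + u), Nat.mul_add_div (by omega), Nat.div_eq_of_lt (by omega),
      add_zero]
  have h3 : cu s t = u := by
    unfold cu
    rw [h2, mul_comm, Nat.mul_add_mod_self_left, Nat.mod_eq_of_lt hu]
  have h4 : cp s t = p := by
    unfold cp
    rw [mul_comm (2 ^ s), ← Nat.div_div_eq_div_mul, h2, mul_comm, Nat.mul_add_div hpos,
      Nat.div_eq_of_lt hu, add_zero]
  have h5 : t < bnd s := by
    unfold bnd
    have h6 : p * 2 ^ s + u + 1 ≤ s * 2 ^ s := by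
      calc p * 2 ^ s + u + 1 ≤ p * 2 ^ s + 2 ^ s := by omega
        _ = (p + 1) * 2 ^ s := by ring
        _ ≤ s * 2 ^ s := Nat.mul_le_mul_right _ hp
    calc t < (p * 2 ^ s + u) * (s + 1) + (s + 1) := by omega
      _ = (p * 2 ^ s + u + 1) * (s + 1) := by ring
      _ ≤ s * 2 ^ s * (s + 1) := Nat.mul_le_mul_right _ h6
      _ = s * (2 ^ s * (s + 1)) := by ring
  have hle : firstT s h ≤ t := firstT_le s h (by rw [h1, h3, h4]; exact hc)
  have hlt : firstT s h < bnd s := hle.trans_lt h5
  refine ⟨(cr s (firstT s h), s, cp s (firstT s h), cu s (firstT s h)), ?_, rfl, ?_⟩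
  · unfold stage
    rw [if_pos hlt]
  · change cp s (firstT s h) ≤ p
    rw [← h4]
    exact Nat.div_le_div_right hle

theorem mem_stage {s : ℕ} {h : List Act} {a : Act} (ha : a ∈ stage s h) :
    a ∈ h ∨ (stage s h = a :: h ∧ a.2.1 = s ∧ Cand s h a.2.2.1 a.2.2.2 a.1 ∧ a.1 ≤ s) := by
  by_cases hlt : firstT s h < bnd s
  · have e : stage s h = (cr s (firstT s h), s, cp s (firstT s h), cu s (firstT s h)) :: h := by
      unfold stage
      rw [if_pos hlt]
    rw [e] at ha
    rcases List.mem_cons.1 ha with rfl | ha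
    · refine Or.inr ⟨e, rfl, firstT_spec s h hlt, ?_⟩
      exact Nat.le_of_lt_succ (Nat.mod_lt _ (Nat.succ_pos s))
    · exact Or.inl ha
  · left
    unfold stage at ha
    rwa [if_neg hlt] at ha

theorem hist_succ_subset (s : ℕ) {a : Act} (ha : a ∈ hist s) : a ∈ hist (s + 1) := by
  change a ∈ stage s (hist s)
  unfold stage
  split_ifs
  · exact List.mem_cons_of_mem _ ha
  · exact ha

theorem hist_mono {s s' : ℕ} (h : s ≤ s') {a : Act} (ha : a ∈ hist s) : a ∈ hist s' := by
  induction h with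
  | refl => exact ha
  | step _ ih => exact hist_succ_subset _ ih

/-- What is known about an action. -/
theorem hist_spec {s : ℕ} {a : Act} (ha : a ∈ hist s) :
    a.2.1 < s ∧ hist (a.2.1 + 1) = a :: hist a.2.1 ∧
      Cand a.2.1 (hist a.2.1) a.2.2.1 a.2.2.2 a.1 ∧ a.1 ≤ a.2.1 := by
  induction s with
  | zero => simp [hist] at ha
  | succ s ih =>
    rcases mem_stage (show a ∈ stage s (hist s) from ha) with h | ⟨h1, h2, h3, h4⟩
    · obtain ⟨h5, h6⟩ := ih h
      exact ⟨h5.trans (Nat.lt_succ_self s), h6⟩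
    · rw [h2]
      exact ⟨Nat.lt_succ_self s, h1, h3, h4⟩

/-- All the actions. -/
def All : Set Act := {a | ∃ s, a ∈ hist s}

theorem all_mem_hist {a : Act} (ha : a ∈ All) {s : ℕ} (hs : a.2.1 < s) : a ∈ hist s := by
  obtain ⟨s', hs'⟩ := ha
  have h1 := (hist_spec hs').2.1
  have h2 : a ∈ hist (a.2.1 + 1) := by
    rw [h1]
    exact List.mem_cons_self
  exact hist_mono hs h2

theorem all_spec {a : Act} (ha : a ∈ All) :
    hist (a.2.1 + 1) = a :: hist a.2.1 ∧
      Cand a.2.1 (hist a.2.1) a.2.2.1 a.2.2.2 a.1 ∧ a.1 ≤ a.2.1 := by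
  obtain ⟨s', hs'⟩ := ha
  exact (hist_spec hs').2

theorem all_unique_stage {a b : Act} (ha : a ∈ All) (hb : b ∈ All) (h : a.2.1 = b.2.1) :
    a = b := by
  have h1 := (all_spec ha).1
  have h2 := (all_spec hb).1
  rw [h, h2] at h1
  exact (List.cons.inj h1).1.symm

theorem all_unique_req {a b : Act} (ha : a ∈ All) (hb : b ∈ All) (h : a.2.2.1 = b.2.2.1) :
    a = b := by
  rcases lt_trichotomy a.2.1 b.2.1 with h1 | h1 | h1
  · exact absurd h ((all_spec hb).2.1.1 a (all_mem_hist ha h1))
  · exact all_unique_stage ha hb h1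
  · exact absurd h.symm ((all_spec ha).2.1.1 b (all_mem_hist hb h1))

/-- Some finite colouring obeys all the actions so far. -/
theorem exists_ok (s : ℕ) : ∃ u, OK (hist s) u := by
  induction s with
  | zero => exact ⟨0, fun a ha => by simp [hist] at ha⟩
  | succ s ih =>
    by_cases hlt : firstT s (hist s) < bnd s
    · have e : hist (s + 1) = (cr s (firstT s (hist s)), s, cp s (firstT s (hist s)),
          cu s (firstT s (hist s))) :: hist s := by
        change stage s (hist s) = _
        unfold stage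
        rw [if_pos hlt]
      refine ⟨cu s (firstT s (hist s)), ?_⟩
      rw [e]
      intro a ha
      rcases List.mem_cons.1 ha with rfl | ha
      · intro x _ x' _ _ _ _
        exact Iff.rfl
      · exact (firstT_spec s (hist s) hlt).2.2.2.1 a ha
    · obtain ⟨u, hu⟩ := ih
      refine ⟨u, ?_⟩
      have e : hist (s + 1) = hist s := by
        change stage s (hist s) = _
        unfold stage
        rw [if_neg hlt]
      rw [e]
      exact hu

/-- The action with the least requirement whose window ends beyond `x`. -/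
def IsStar (x : ℕ) (b : Act) : Prop :=
  b ∈ All ∧ x < b.2.1 ∧ ∀ a ∈ All, x < a.2.1 → b.2.2.1 ≤ a.2.2.1

theorem star_unique {x : ℕ} {b b' : Act} (h : IsStar x b) (h' : IsStar x b') : b = b' :=
  all_unique_req h.1 h'.1 (le_antisymm (h.2.2 b' h'.1 h'.2.1) (h'.2.2 b h.1 h.2.1))

theorem star_exists {x : ℕ} (h : ∃ a ∈ All, x < a.2.1) : ∃ b, IsStar x b := by
  classical
  have hex : ∃ p, ∃ a ∈ All, x < a.2.1 ∧ a.2.2.1 = p := by
    obtain ⟨a, ha, hx⟩ := h
    exact ⟨_, a, ha, hx, rfl⟩
  obtain ⟨b, hb, hxb, hp⟩ := Nat.find_spec hex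
  refine ⟨b, hb, hxb, fun a ha hxa => ?_⟩
  rw [hp]
  exact Nat.find_min' hex ⟨a, ha, hxa, rfl⟩

theorem star_begin {x : ℕ} {b : Act} (h : IsStar x b) : b.1 ≤ x := by
  obtain ⟨hb, hx, hmin⟩ := h
  rcases (all_spec hb).2.1.2.2.1 with h0 | ⟨a, ha, hap, has⟩
  · rw [h0]
    exact Nat.zero_le _
  · rw [← has]
    by_contra hcon
    have := hmin a ⟨_, ha⟩ (not_le.1 hcon)
    omega

theorem star_end {x : ℕ} {a b : Act} (hb : IsStar x b) (ha : a ∈ All) (h1 : a.1 ≤ x)
    (h2 : x < a.2.1) : a = b ∨ a.2.1 < b.2.1 := by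
  by_cases hab : a = b
  · exact Or.inl hab
  right
  have h3 := hb.2.2 a ha h2
  have h4 : a.2.2.1 ≠ b.2.2.1 := fun h => hab (all_unique_req ha hb.1 h)
  rcases lt_trichotomy a.2.1 b.2.1 with h5 | h5 | h5
  · exact h5
  · exact absurd (all_unique_stage ha hb.1 h5) hab
  · have h6 := (all_spec ha).2.1.2.1 b (all_mem_hist hb.1 h5) (by omega)
    have h7 := hb.2.1
    omega

theorem star_window {x x' : ℕ} {a b : Act} (hb : IsStar x b) (ha : a ∈ All) (h1 : a.1 ≤ x)
    (h2 : x < a.2.1) (h1' : a.1 ≤ x') (h2' : x' < a.2.1) : IsStar x' b := by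
  have h3 : a.2.1 ≤ b.2.1 := by
    rcases star_end hb ha h1 h2 with h | h
    · rw [h]
    · exact h.le
  refine ⟨hb.1, h2'.trans_le h3, fun c hc hxc => ?_⟩
  by_contra hcon
  by_cases hx : x < c.2.1
  · exact hcon (hb.2.2 c hc hx)
  · have h4 : c.2.1 < a.2.1 := by omega
    have h5 := hb.2.2 a ha h2
    have h6 := (all_spec ha).2.1.2.1 c (all_mem_hist hc h4) (by omega)
    omega

/-- Two places in a window of an action: the star of the places distinguishes them exactly if the
action does. -/
theorem star_sim {x x' : ℕ} {a b : Act} (hb : IsStar x b) (ha : a ∈ All) (h1 : a.1 ≤ x)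
    (h2 : x < a.2.1) (h1' : a.1 ≤ x') (h2' : x' < a.2.1)
    (hj : x.unpair.1 = x'.unpair.1) :
    (dig 2 b.2.2.2 x = dig 2 b.2.2.2 x' ↔ dig 2 a.2.2.2 x = dig 2 a.2.2.2 x') := by
  rcases star_end hb ha h1 h2 with h | h
  · rw [h]
  · exact (all_spec hb.1).2.1.2.2.2.1 a (all_mem_hist ha h) x h2 x' h2' h1 h1' hj

section rep

/-- The window of a place: an action if there is one. -/
noncomputable def starOf (x : ℕ) : Option Act :=
  open Classical in if h : ∃ b, IsStar x b then some h.choose else none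

theorem starOf_some {x : ℕ} {b : Act} : starOf x = some b ↔ IsStar x b := by
  unfold starOf
  constructor
  · intro h
    split_ifs at h with h'
    rw [← Option.some_inj.1 h]
    exact h'.choose_spec
  · intro h
    have h' : ∃ b, IsStar x b := ⟨b, h⟩
    rw [dif_pos h', Option.some_inj]
    exact star_unique h'.choose_spec h

/-- The representative of a place of the tree `j`. -/
noncomputable def rep (j y : ℕ) : ℕ :=
  match starOf (Nat.pair j y) with
  | none => y
  | some b => sInf {v | b.1 ≤ Nat.pair j v}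

/-- The parity of a place of the tree `j`. -/
noncomputable def par (j y : ℕ) : Bool :=
  match starOf (Nat.pair j y) with
  | none => false
  | some b => decide (dig 2 b.2.2.2 (Nat.pair j y) ≠ dig 2 b.2.2.2 (Nat.pair j (rep j y)))

theorem rep_some {j y : ℕ} {b : Act} (h : IsStar (Nat.pair j y) b) :
    rep j y = sInf {v | b.1 ≤ Nat.pair j v} := by
  unfold rep
  rw [starOf_some.2 h]

theorem par_some {j y : ℕ} {b : Act} (h : IsStar (Nat.pair j y) b) :
    par j y = decide (dig 2 b.2.2.2 (Nat.pair j y) ≠ dig 2 b.2.2.2 (Nat.pair j (rep j y))) := by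
  unfold par
  rw [starOf_some.2 h]

theorem rep_none {j y : ℕ} (h : ¬ ∃ b, IsStar (Nat.pair j y) b) : rep j y = y := by
  have h1 : starOf (Nat.pair j y) = none := by
    unfold starOf
    rw [dif_neg h]
  unfold rep
  rw [h1]

theorem rep_window {j y : ℕ} {b : Act} (h : IsStar (Nat.pair j y) b) :
    b.1 ≤ Nat.pair j (rep j y) ∧ rep j y ≤ y := by
  have h1 : y ∈ {v | b.1 ≤ Nat.pair j v} := star_begin h
  rw [rep_some h]
  exact ⟨Nat.sInf_mem ⟨y, h1⟩, Nat.sInf_le h1⟩

theorem pair_mono {j y y' : ℕ} (h : y ≤ y') : Nat.pair j y ≤ Nat.pair j y' := by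
  rcases h.eq_or_lt with rfl | h
  · exact le_rfl
  · exact (Nat.pair_lt_pair_right j h).le

theorem rep_star {j y : ℕ} {b : Act} (h : IsStar (Nat.pair j y) b) :
    IsStar (Nat.pair j (rep j y)) b := by
  obtain ⟨h1, h2⟩ := rep_window h
  exact star_window h h.1 (star_begin h) h.2.1 h1 ((pair_mono h2).trans_lt h.2.1)

/-- Every class is finite. -/
theorem rep_finite (j v : ℕ) : {y | rep j y = v}.Finite := by
  by_cases hv : ∃ b, IsStar (Nat.pair j v) b
  · obtain ⟨b, hb⟩ := hv
    refine (Set.finite_Iic (max v b.2.1)).subset ?_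
    intro y hy
    by_cases hy' : ∃ b', IsStar (Nat.pair j y) b'
    · obtain ⟨b', hb'⟩ := hy'
      have h1 := rep_star hb'
      rw [show rep j y = v from hy] at h1
      have h2 := star_unique h1 hb
      subst h2
      have h3 := Nat.right_le_pair j y
      exact Set.mem_Iic.2 ((h3.trans hb'.2.1.le).trans (le_max_right _ _))
    · have h1 := rep_none hy'
      rw [show rep j y = v from hy] at h1
      rw [← h1]
      exact Set.mem_Iic.2 (le_max_left _ _)
  · refine (Set.finite_singleton v).subset ?_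
    intro y hy
    by_cases hy' : ∃ b', IsStar (Nat.pair j y) b'
    · obtain ⟨b', hb'⟩ := hy'
      have h1 := rep_star hb'
      rw [show rep j y = v from hy] at h1
      exact absurd ⟨b', h1⟩ hv
    · have h1 := rep_none hy'
      rw [show rep j y = v from hy] at h1
      exact h1.symm

theorem decide_ne_eq_iff {a b c : ℕ} (ha : a < 2) (hb : b < 2) (hc : c < 2) :
    (decide (a ≠ c) = decide (b ≠ c)) ↔ a = b := by
  interval_cases a <;> interval_cases b <;> interval_cases c <;> decide

/-- The free points give colourings which obey all the actions. -/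
theorem free_sim (z : ℕ → ℕ → Bool) {a : Act} (ha : a ∈ All) :
    Sim a.1 a.2.1 (dig 2 a.2.2.2)
      (fun x : ℕ => (z (rep x.unpair.1 x.unpair.2) x.unpair.1 ^^ par x.unpair.1 x.unpair.2)) := by
  intro x hx x' hx' hr hr' hj
  obtain ⟨b, hb⟩ := star_exists ⟨a, ha, hx⟩
  have hb' : IsStar x' b := star_window hb ha hr hx hr' hx'
  rw [← star_sim hb ha hr hx hr' hx' hj]
  obtain ⟨j, y, rfl⟩ : ∃ j y, x = Nat.pair j y := ⟨_, _, (Nat.pair_unpair x).symm⟩
  obtain ⟨j', y', rfl⟩ : ∃ j' y', x' = Nat.pair j' y' := ⟨_, _, (Nat.pair_unpair x').symm⟩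
  simp only [Nat.unpair_pair] at hj ⊢
  subst hj
  have hrep : rep j y' = rep j y := by rw [rep_some hb, rep_some hb']
  rw [par_some hb, par_some hb', hrep]
  rw [Bool.xor_right_inj]
  exact decide_ne_eq_iff (dig_lt (by norm_num)) (dig_lt (by norm_num)) (dig_lt (by norm_num))

end rep

end Pool.Agent.Helper20.RU
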