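import Mathlib

set_option autoImplicit false

namespace Pool.Agent.Helper20.RU

/-- One coordinate: a sequence agreeing with a given one below `l` under which the pairs whose
two values do not have the wanted difference carry at most half of the weight. -/
theorem one_tree {α : Type*} (c : α → ℚ) (p q : α → ℕ) (ε : α → Bool) (l : ℕ)
    (b : ℕ → Bool) :
    ∀ (N : ℕ) (S : Finset α), S.card ≤ N → (∀ a ∈ S, 0 ≤ c a) → (∀ a ∈ S, p a < q a) →
      (∀ a ∈ S, l ≤ q a) →
      ∃ w : ℕ → Bool, (∀ x < l, w x = b x) ∧
        2 * ∑ a ∈ S.filter (fun a => ¬ (w (p a) ^^ w (q a)) = ε a), c a ≤ ∑ a ∈ S, c a := by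
  classical
  intro N
  induction N with
  | zero =>
    intro S hS _ _ _
    have : S = ∅ := Finset.card_eq_zero.1 (Nat.le_zero.1 hS)
    subst this
    exact ⟨b, fun _ _ => rfl, by simp⟩
  | succ N ih =>
    intro S hS hc hpq hl
    rcases S.eq_empty_or_nonempty with rfl | hne
    · exact ⟨b, fun _ _ => rfl, by simp⟩
    obtain ⟨a₀, ha₀, hmax⟩ := S.exists_max_image q hne
    obtain ⟨M, hM⟩ : ∃ M, M = q a₀ := ⟨_, rfl⟩
    rw [← hM] at hmax
    have hcard : (S.filter fun a => q a = M).card + (S.filter fun a => ¬ q a = M).card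
        = S.card := Finset.card_filter_add_card_filter_not _
    have hsum : ∑ a ∈ S.filter (fun a => q a = M), c a + ∑ a ∈ S.filter (fun a => ¬ q a = M), c a
        = ∑ a ∈ S, c a := Finset.sum_filter_add_sum_filter_not _ _ _
    have h1 : 0 < (S.filter fun a => q a = M).card :=
      Finset.card_pos.2 ⟨a₀, by simp [ha₀, hM]⟩
    obtain ⟨w₀, hw₀, hc₀⟩ := ih (S.filter fun a => ¬ q a = M) (by omega)
      (fun a ha => hc a (Finset.mem_filter.1 ha).1)
      (fun a ha => hpq a (Finset.mem_filter.1 ha).1)
      (fun a ha => hl a (Finset.mem_filter.1 ha).1)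
    have hv : ∃ v : Bool, 2 * ∑ a ∈ (S.filter fun a => q a = M).filter
        (fun a => ¬ (w₀ (p a) ^^ v) = ε a), c a ≤ ∑ a ∈ S.filter (fun a => q a = M), c a := by
      have h2 := Finset.sum_filter_add_sum_filter_not
        (S.filter fun a => q a = M) (fun a => (w₀ (p a) ^^ true) = ε a) c
      by_cases h : 2 * ∑ a ∈ (S.filter fun a => q a = M).filter
          (fun a => ¬ (w₀ (p a) ^^ true) = ε a), c a ≤ ∑ a ∈ S.filter (fun a => q a = M), c a
      · exact ⟨true, h⟩
      · refine ⟨false, ?_⟩
        have e : ((S.filter fun a => q a = M).filter fun a => ¬ (w₀ (p a) ^^ false) = ε a)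
            = (S.filter fun a => q a = M).filter fun a => (w₀ (p a) ^^ true) = ε a := by
          apply Finset.filter_congr
          intro a _
          cases w₀ (p a) <;> cases ε a <;> simp
        rw [e]
        linarith
    obtain ⟨v, hv⟩ := hv
    refine ⟨Function.update w₀ M v, ?_, ?_⟩
    · intro x hx
      have h3 := hl a₀ ha₀
      rw [Function.update_of_ne (by omega)]
      exact hw₀ x hx
    · have hsub : (S.filter fun a => ¬ (Function.update w₀ M v (p a)
            ^^ Function.update w₀ M v (q a)) = ε a) ⊆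
          ((S.filter fun a => q a = M).filter fun a => ¬ (w₀ (p a) ^^ v) = ε a) ∪
            ((S.filter fun a => ¬ q a = M).filter fun a =>
              ¬ (w₀ (p a) ^^ w₀ (q a)) = ε a) := by
        intro a ha
        obtain ⟨haS, hae⟩ := Finset.mem_filter.1 ha
        have h4 := hpq a haS
        have h5 := hmax a haS
        have hp : Function.update w₀ M v (p a) = w₀ (p a) :=
          Function.update_of_ne (by omega) _ _
        rw [Finset.mem_union]
        by_cases hq : q a = M
        · left
          rw [hp, hq, Function.update_self] at hae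
          exact Finset.mem_filter.2 ⟨Finset.mem_filter.2 ⟨haS, hq⟩, hae⟩
        · right
          rw [hp, Function.update_of_ne hq] at hae
          exact Finset.mem_filter.2 ⟨Finset.mem_filter.2 ⟨haS, hq⟩, hae⟩
      have hdis : Disjoint
          ((S.filter fun a => q a = M).filter fun a => ¬ (w₀ (p a) ^^ v) = ε a)
          ((S.filter fun a => ¬ q a = M).filter fun a =>
            ¬ (w₀ (p a) ^^ w₀ (q a)) = ε a) := by
        rw [Finset.disjoint_left]
        intro a ha ha'
        exact (Finset.mem_filter.1 (Finset.mem_filter.1 ha').1).2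
          (Finset.mem_filter.1 (Finset.mem_filter.1 ha).1).2
      have h6 := Finset.sum_le_sum_of_subset_of_nonneg (f := c) hsub (fun a ha _ => by
        rcases Finset.mem_union.1 ha with ha | ha
        · exact hc a (Finset.mem_filter.1 (Finset.mem_filter.1 ha).1).1
        · exact hc a (Finset.mem_filter.1 (Finset.mem_filter.1 ha).1).1)
      rw [Finset.sum_union hdis] at h6
      linarith

/-- All coordinates: if `∑ 2 ^ (- #J a) < 1`, then a point agreeing with a given one
below `l` gives, for every index `a`, the wanted difference to the pair of some coordinate in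
`J a`. -/
theorem all_trees {α : Type*} (p q : α → ℕ → ℕ) (ε : α → ℕ → Bool) (l : ℕ)
    (w₀ : ℕ → ℕ → Bool) :
    ∀ (F : Finset ℕ) (S : Finset α) (J : α → Finset ℕ), (∀ a ∈ S, J a ⊆ F) →
      (∀ a ∈ S, ∀ j ∈ J a, p a j < q a j) → (∀ a ∈ S, ∀ j ∈ J a, l ≤ q a j) →
      ∑ a ∈ S, (1 / 2 : ℚ) ^ (J a).card < 1 →
      ∃ w : ℕ → ℕ → Bool, (∀ x < l, w x = w₀ x) ∧
        ∀ a ∈ S, ∃ j ∈ J a, (w (p a j) j ^^ w (q a j) j) = ε a j := by
  classical
  intro F
  induction F using Finset.induction_on with
  | empty =>
    intro S J hJ _ _ hS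
    have h1 : ∑ a ∈ S, (1 / 2 : ℚ) ^ (J a).card = ∑ a ∈ S, 1 := by
      apply Finset.sum_congr rfl
      intro a ha
      rw [Finset.subset_empty.1 (hJ a ha)]
      simp
    rw [h1] at hS
    have h2 : (S.card : ℚ) < 1 := by simpa using hS
    have : S = ∅ := Finset.card_eq_zero.1 (by
      have : S.card < 1 := by exact_mod_cast h2
      omega)
    subst this
    exact ⟨w₀, fun _ _ => rfl, by simp⟩
  | insert j F hj ih =>
    intro S J hJ hpq hl hS
    obtain ⟨v, hv, hvS⟩ := one_tree (fun a => (1 / 2 : ℚ) ^ (J a).card) (fun a => p a j)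
      (fun a => q a j) (fun a => ε a j) l (fun x => w₀ x j) (S.filter fun a => j ∈ J a).card
      (S.filter fun a => j ∈ J a) le_rfl (fun a _ => by positivity)
      (fun a ha => hpq a (Finset.mem_filter.1 ha).1 j (Finset.mem_filter.1 ha).2)
      (fun a ha => hl a (Finset.mem_filter.1 ha).1 j (Finset.mem_filter.1 ha).2)
    have hsplit : ∑ a ∈ S.filter (fun a => j ∈ J a), (1 / 2 : ℚ) ^ (J a).card +
        ∑ a ∈ S.filter (fun a => ¬ j ∈ J a), (1 / 2 : ℚ) ^ (J a).card
        = ∑ a ∈ S, (1 / 2 : ℚ) ^ (J a).card := Finset.sum_filter_add_sum_filter_not _ _ _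
    have hS' : ∑ a ∈ ((S.filter fun a => j ∈ J a).filter
        fun a => ¬ (v (p a j) ^^ v (q a j)) = ε a j) ∪
        (S.filter fun a => ¬ j ∈ J a), (1 / 2 : ℚ) ^ ((J a).erase j).card < 1 := by
      have hdis : Disjoint
          ((S.filter fun a => j ∈ J a).filter fun a => ¬ (v (p a j) ^^ v (q a j)) = ε a j)
          (S.filter fun a => ¬ j ∈ J a) := by
        rw [Finset.disjoint_left]
        intro a ha ha'
        exact (Finset.mem_filter.1 ha').2 (Finset.mem_filter.1 (Finset.mem_filter.1 ha).1).2
      rw [Finset.sum_union hdis]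
      have e1 : ∑ a ∈ (S.filter fun a => j ∈ J a).filter
          (fun a => ¬ (v (p a j) ^^ v (q a j)) = ε a j),
          (1 / 2 : ℚ) ^ ((J a).erase j).card
          = 2 * ∑ a ∈ (S.filter fun a => j ∈ J a).filter
            (fun a => ¬ (v (p a j) ^^ v (q a j)) = ε a j),
            (1 / 2 : ℚ) ^ (J a).card := by
        rw [Finset.mul_sum]
        apply Finset.sum_congr rfl
        intro a ha
        have hja := (Finset.mem_filter.1 (Finset.mem_filter.1 ha).1).2
        rw [← Finset.card_erase_add_one hja, pow_succ]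
        ring
      have e2 : ∑ a ∈ S.filter (fun a => ¬ j ∈ J a), (1 / 2 : ℚ) ^ ((J a).erase j).card
          = ∑ a ∈ S.filter (fun a => ¬ j ∈ J a), (1 / 2 : ℚ) ^ (J a).card := by
        apply Finset.sum_congr rfl
        intro a ha
        rw [Finset.erase_eq_of_notMem (Finset.mem_filter.1 ha).2]
      rw [e1, e2]
      linarith
    have hmem : ∀ a ∈ ((S.filter fun a => j ∈ J a).filter
        fun a => ¬ (v (p a j) ^^ v (q a j)) = ε a j) ∪
        (S.filter fun a => ¬ j ∈ J a), a ∈ S := by
      intro a ha
      rcases Finset.mem_union.1 ha with ha | ha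
      · exact (Finset.mem_filter.1 (Finset.mem_filter.1 ha).1).1
      · exact (Finset.mem_filter.1 ha).1
    obtain ⟨w', hw', hwS⟩ := ih _ (fun a => (J a).erase j)
      (fun a ha => by
        intro i hi
        obtain ⟨hij, hi⟩ := Finset.mem_erase.1 hi
        rcases Finset.mem_insert.1 (hJ a (hmem a ha) hi) with h | h
        · exact absurd h hij
        · exact h)
      (fun a ha i hi => hpq a (hmem a ha) i (Finset.mem_of_mem_erase hi))
      (fun a ha i hi => hl a (hmem a ha) i (Finset.mem_of_mem_erase hi)) hS'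
    refine ⟨fun x i => if i = j then v x else w' x i, ?_, ?_⟩
    · intro x hx
      funext i
      by_cases hi : i = j
      · simp only [hi, if_true]
        exact hv x hx
      · simp only [hi, if_false]
        rw [hw' x hx]
    · intro a ha
      by_cases h : j ∈ J a ∧ (v (p a j) ^^ v (q a j)) = ε a j
      · refine ⟨j, h.1, ?_⟩
        simpa only [if_true] using h.2
      · have ha' : a ∈ ((S.filter fun a => j ∈ J a).filter
            fun a => ¬ (v (p a j) ^^ v (q a j)) = ε a j) ∪
            (S.filter fun a => ¬ j ∈ J a) := by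
          rw [Finset.mem_union]
          by_cases hja : j ∈ J a
          · left
            refine Finset.mem_filter.2 ⟨Finset.mem_filter.2 ⟨ha, hja⟩, ?_⟩
            intro hne
            exact h ⟨hja, hne⟩
          · right
            exact Finset.mem_filter.2 ⟨ha, hja⟩
        obtain ⟨i, hi, hne⟩ := hwS a ha'
        obtain ⟨hij, hi⟩ := Finset.mem_erase.1 hi
        refine ⟨i, hi, ?_⟩
        simpa only [hij, if_false] using hne

end Pool.Agent.Helper20.RU
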