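import Mathlib
import Pool.Agent.Helper20.RU.Large

set_option autoImplicit false

open Filter Topology

namespace Pool.Agent.Helper20.RU

open Pool.Agent.Helper20.RW (cyl self_mem_cyl isOpen_cyl exists_cyl continuous_coord)

/-- The value at the place `y` in the coordinate `j` of the colouring given by the free point `z`,
the representatives `rep` and the parities `par`. -/
def val (rep : ℕ → ℕ → ℕ) (par : ℕ → ℕ → Bool) (z : ℕ → ℕ → Bool) (j y : ℕ) : Bool :=
  z (rep j y) j ^^ par j y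

/-- For every finite `D ⊆ Y` of one colour and every `j` in `J` the output of the operator `j` on
`D` does not meet two values. -/
def Valid {κ : Type*} (Op : ℕ → Set ℕ → Set ℕ) (rep : ℕ → ℕ → ℕ) (par : ℕ → ℕ → Bool)
    (J : Finset ℕ) (Y : Set ℕ) (z : ℕ → ℕ → Bool) (g : ℕ → κ) : Prop :=
  ∀ i : κ, ∀ j ∈ J, ∀ D : Finset ℕ, (↑D : Set ℕ) ⊆ Y →
    ∀ y ∈ Op j ↑D, ∀ y' ∈ Op j ↑D, (∀ x ∈ D, g x = i) → val rep par z j y = val rep par z j y'

theorem isClosed_valid {κ : Type*} [TopologicalSpace κ] [DiscreteTopology κ]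
    (Op : ℕ → Set ℕ → Set ℕ) (rep : ℕ → ℕ → ℕ) (par : ℕ → ℕ → Bool)
    (J : Finset ℕ) (Y : Set ℕ) :
    IsClosed {p : (ℕ → ℕ → Bool) × (ℕ → κ) | Valid Op rep par J Y p.1 p.2} := by
  simp only [Valid, Set.ofPred_forall]
  refine isClosed_iInter fun i => isClosed_iInter fun j => isClosed_iInter fun _ =>
      isClosed_iInter fun D => isClosed_iInter fun _ => isClosed_iInter fun y =>
      isClosed_iInter fun _ => isClosed_iInter fun y' => isClosed_iInter fun _ => ?_
  refine isClosed_imp ?_ ?_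
  · have e : {p : (ℕ → ℕ → Bool) × (ℕ → κ) | ∀ x ∈ D, p.2 x = i}
        = ⋂ x ∈ D, {p : (ℕ → ℕ → Bool) × (ℕ → κ) | p.2 x = i} := by
      ext p
      simp
    rw [e]
    refine isOpen_biInter_finset fun x _ => ?_
    have hc : Continuous fun p : (ℕ → ℕ → Bool) × (ℕ → κ) => p.2 x :=
      (continuous_apply x).comp continuous_snd
    exact (isOpen_discrete ({i} : Set κ)).preimage hc
  · have hc : ∀ v, Continuous fun p : (ℕ → ℕ → Bool) × (ℕ → κ) => val rep par p.1 j v := by
      intro v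
      have h1 : Continuous fun p : (ℕ → ℕ → Bool) × (ℕ → κ) => p.1 (rep j v) j :=
        (continuous_coord _ _).comp continuous_fst
      have h2 : Continuous fun b : Bool => (b ^^ par j v) := continuous_of_discreteTopology
      exact h2.comp h1
    exact isClosed_eq (hc y) (hc y')

/-- The static lemma: if all the points have valid colourings, then one operator meets only
boundedly many classes on the sets taken from a suitable infinite subset. -/
theorem static {κ : Type} [Fintype κ] [TopologicalSpace κ] [DiscreteTopology κ]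
    (Op : ℕ → Set ℕ → Set ℕ) (rep : ℕ → ℕ → ℕ) (par : ℕ → ℕ → Bool)
    (J : Finset ℕ) (hcard : Fintype.card κ < 2 ^ J.card) (Y : Set ℕ) (hY : Y.Infinite)
    (hval : ∀ z, ∃ g : ℕ → κ, Valid Op rep par J Y z g) :
    ∃ X' ⊆ Y, X'.Infinite ∧ ∃ j ∈ J, ∃ l, ∀ D : Finset ℕ, (↑D : Set ℕ) ⊆ X' →
      ∀ y ∈ Op j ↑D, ∀ y' ∈ Op j ↑D, rep j y < rep j y' → rep j y' < l := by
  classical
  have hcl := isClosed_valid (κ := κ) Op rep par J Y
  have : CompactSpace {p : (ℕ → ℕ → Bool) × (ℕ → κ) | Valid Op rep par J Y p.1 p.2} :=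
    isCompact_iff_compactSpace.1 hcl.isCompact
  let π : {p : (ℕ → ℕ → Bool) × (ℕ → κ) | Valid Op rep par J Y p.1 p.2} → ℕ → ℕ → Bool :=
    fun p => p.1.1
  have hπ : Continuous π := continuous_fst.comp continuous_subtype_val
  have hsurj : Function.Surjective π := by
    intro w
    obtain ⟨g, hg⟩ := hval w
    exact ⟨⟨(w, g), hg⟩, rfl⟩
  obtain ⟨Z, hZc, hZu, hZm⟩ := exists_compact_surjective_zorn_subset hπ hsurj
  have hZ : ∀ w, ∃ p ∈ Z, π p = w := by
    intro w
    have : w ∈ π '' Z := by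
      rw [hZu]
      exact Set.mem_univ w
    exact this
  have hev : ∀ k, Continuous fun p :
      {p : (ℕ → ℕ → Bool) × (ℕ → κ) | Valid Op rep par J Y p.1 p.2} => p.1.2 k := fun k =>
    (continuous_apply k).comp (continuous_snd.comp continuous_subtype_val)
  let u : κ → ℕ → Set (ℕ → ℕ → Bool) := fun i k => {w | ∀ p ∈ Z, π p = w → p.1.2 k = i}
  have hu : ∀ i k, IsOpen (u i k) := by
    intro i k
    have e : u i k = (π '' (Z ∩ {p | p.1.2 k ≠ i}))ᶜ := by
      ext w
      simp only [u, Set.mem_ofPred_eq, Set.mem_compl_iff, Set.mem_image, Set.mem_inter_iff,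
        not_exists, not_and, and_imp, ne_eq]
      constructor
      · intro hw p hp hne hpw
        exact hne (hw p hp hpw)
      · intro hw p hp hpw
        by_contra hne
        exact hw p hp hne hpw
    rw [e, isOpen_compl_iff]
    have hcl' : IsClosed {p : {p : (ℕ → ℕ → Bool) × (ℕ → κ) |
        Valid Op rep par J Y p.1 p.2} | p.1.2 k ≠ i} :=
      (isClosed_discrete ({i}ᶜ : Set κ)).preimage (hev k)
    have hZk : IsCompact Z := isCompact_iff_compactSpace.2 hZc
    exact ((hZk.inter_right hcl').image hπ).isClosed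
  have hd : ∀ k ∈ Y, Dense (⋃ i ∈ (Finset.univ : Finset κ), u i k) := by
    intro k _
    rw [dense_iff_inter_open]
    rintro U₁ hU₁ ⟨w₁, hw₁⟩
    obtain ⟨p₁, hp₁, hpw₁⟩ := hZ w₁
    let i := p₁.1.2 k
    let E₀ : Set Z := {p | ¬ (π p.1 ∈ U₁ ∧ p.1.1.2 k = i)}
    have hE₀ : IsClosed E₀ := by
      have h1 : IsOpen {p : Z | π p.1 ∈ U₁ ∧ p.1.1.2 k = i} :=
        (hU₁.preimage (hπ.comp continuous_subtype_val)).inter
          ((isOpen_discrete ({i} : Set κ)).preimage ((hev k).comp continuous_subtype_val))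
      exact h1.isClosed_compl
    have hE₀' : E₀ ≠ Set.univ := by
      rw [Set.ne_univ_iff_exists_notMem]
      refine ⟨⟨p₁, hp₁⟩, ?_⟩
      intro hn
      apply hn
      refine ⟨?_, rfl⟩
      rw [hpw₁]
      exact hw₁
    obtain ⟨w, hw⟩ := (Set.ne_univ_iff_exists_notMem _).1 (hZm E₀ hE₀' hE₀)
    have hall : ∀ p ∈ Z, π p = w → π p ∈ U₁ ∧ p.1.2 k = i := by
      intro p hp hpw
      by_contra hcon
      exact hw ⟨⟨p, hp⟩, hcon, hpw⟩
    obtain ⟨p, hp, hpw⟩ := hZ w
    refine ⟨w, ?_, Set.mem_iUnion₂.2 ⟨i, Finset.mem_univ _,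
      fun p hp hpw => (hall p hp hpw).2⟩⟩
    rw [← hpw]
    exact (hall p hp hpw).1
  have hsum : ∑ _i ∈ (Finset.univ : Finset κ), (1 / 2 : ℚ) ^ J.card < 1 := by
    rw [Finset.sum_const, nsmul_eq_mul, Finset.card_univ, div_pow, one_pow, mul_one_div,
      div_lt_one (by positivity)]
    exact_mod_cast hcard
  obtain ⟨i, _, j, hj, l, X', hX', hinf, hL⟩ := large Finset.univ (fun _ => J) hsum u hu Y hY hd
    (fun _ _ => false) (J.sup id + 1) (by
      intro i _ j hj
      have := Finset.le_sup (f := id) hj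
      simp only [id] at this
      omega)
  refine ⟨X', hX', hinf, j, hj, l, fun D hD y hy y' hy' hyy => ?_⟩
  by_contra hcon
  -- a point at which the two values differ
  obtain ⟨v, ⟨_, hv2⟩, hne⟩ := hL D hD (rep j y) (rep j y') (!(par j y ^^ par j y')) hyy
    (by omega)
  obtain ⟨p, hp, hpv⟩ := hZ v
  have h1 : Valid Op rep par J Y p.1.1 p.1.2 := p.2
  have h2 : p.1.1 = v := hpv
  rw [h2] at h1
  have h3 := h1 i j hj D (hD.trans hX') y hy y' hy' (fun x hx => hv2 x hx p hp hpv)
  unfold val at h3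
  revert hne h3
  cases v (rep j y) j <;> cases v (rep j y') j <;> cases par j y <;> cases par j y' <;> decide

end Pool.Agent.Helper20.RU
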