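import Mathlib
import Pool.Agent.Helper20.RU.Hist
import Pool.Agent.Helper20.RU.Static

set_option autoImplicit false

open Filter Topology

namespace Pool.Agent.Helper20.RU

open Nat.Partrec (Code)

/-- The characteristic function of a set. -/
noncomputable def ind (V : Set ℕ) (x : ℕ) : Bool :=
  open Classical in decide (x ∈ V)

theorem ind_eq_true (V : Set ℕ) (x : ℕ) : ind V x = true ↔ x ∈ V := by
  unfold ind
  simp

/-- The places at which the functional with code `o` gives the answer one on the set `V`. -/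
noncomputable def Out (o : Code) (V : Set ℕ) : Set ℕ :=
  {y | ∃ k, 1 ∈ o.eval (Encodable.encode ((List.range k).map fun x => (ind V x).toNat, y))}

theorem out_cont (o : Code) (V : Set ℕ) (y : ℕ) (h : y ∈ Out o V) :
    ∃ k, ∀ V' : Set ℕ, (∀ x < k, x ∈ V' ↔ x ∈ V) → y ∈ Out o V' := by
  obtain ⟨k, hk⟩ := h
  refine ⟨k, fun V' hV => ⟨k, ?_⟩⟩
  have e : ((List.range k).map fun x => (ind V' x).toNat)
      = (List.range k).map fun x => (ind V x).toNat := by
    apply List.map_congr_left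
    intro n hn
    have h2 := hV n (List.mem_range.1 hn)
    rw [← ind_eq_true, ← ind_eq_true] at h2
    rw [Bool.eq_iff_iff.2 h2]
  rw [e]
  exact hk

/-- From finite computations to the answers. -/
theorem out_of_conv {s d y : ℕ} {o : Code} {V : Set ℕ} (h : Conv s o d y)
    (hV : ∀ x < s, x ∈ V ↔ dig 2 d x = 1) : y ∈ Out o V := by
  obtain ⟨k, hk, he⟩ := h
  refine ⟨k, ?_⟩
  have e : ((List.range k).map fun x => (ind V x).toNat)
      = (List.range k).map fun x => dig 2 d x := by
    apply List.map_congr_left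
    intro n hn
    have h1 := hV n (by have := List.mem_range.1 hn; omega)
    have h2 : dig 2 d n < 2 := dig_lt (by norm_num)
    by_cases hn' : n ∈ V
    · rw [(ind_eq_true V n).2 hn', h1.1 hn']
      rfl
    · have h3 : ind V n = false := by
        rw [← Bool.not_eq_true, ind_eq_true]
        exact hn'
      have h4 : ¬ dig 2 d n = 1 := fun h => hn' (h1.2 h)
      rw [h3]
      change 0 = dig 2 d n
      omega
  rw [e]
  exact Code.evaln_sound (Option.mem_def.2 he)

/-- From the answers to finite computations. -/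
theorem conv_of_out {y : ℕ} {o : Code} {D : Set ℕ} (h : y ∈ Out o D) :
    ∃ s₀, ∀ s ≥ s₀, ∀ d, (∀ x < s, x ∈ D ↔ dig 2 d x = 1) → Conv s o d y := by
  obtain ⟨k, hk⟩ := h
  obtain ⟨n, hn⟩ := Code.evaln_complete.1 hk
  refine ⟨max k n, fun s hs d hd => ⟨k, ?_, ?_⟩⟩
  · have := (le_max_left k n).trans hs
    omega
  have e : ((List.range k).map fun x => (ind D x).toNat)
      = (List.range k).map fun x => dig 2 d x := by
    apply List.map_congr_left
    intro v hv
    have h1 := hd v (by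
      have := (le_max_left k n).trans hs
      have := List.mem_range.1 hv
      omega)
    have h2 : dig 2 d v < 2 := dig_lt (by norm_num)
    by_cases hn' : v ∈ D
    · rw [(ind_eq_true D v).2 hn', h1.1 hn']
      rfl
    · have h3 : ind D v = false := by
        rw [← Bool.not_eq_true, ind_eq_true]
        exact hn'
      have h4 : ¬ dig 2 d v = 1 := fun h => hn' (h1.2 h)
      rw [h3]
      change 0 = dig 2 d v
      omega
  rw [← e]
  exact Option.mem_def.1 (Code.evaln_mono ((le_max_right k n).trans hs) hn)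

theorem conv_mono {s s' : ℕ} (hs : s ≤ s') {o : Code} {d y : ℕ} (h : Conv s o d y) :
    Conv s' o d y := by
  obtain ⟨k, hk, he⟩ := h
  exact ⟨k, by omega, Option.mem_def.1 (Code.evaln_mono hs (Option.mem_def.2 he))⟩

/-- The trees. -/
def tree (j : ℕ) (σ : List Bool) : Prop :=
  ∀ a ∈ hist σ.length, ∀ y < σ.length, ∀ y' < σ.length, a.1 ≤ Nat.pair j y →
    Nat.pair j y < a.2.1 → a.1 ≤ Nat.pair j y' → Nat.pair j y' < a.2.1 →
    (σ.getD y false = σ.getD y' false ↔
      dig 2 a.2.2.2 (Nat.pair j y) = dig 2 a.2.2.2 (Nat.pair j y'))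

theorem primrec_tree : PrimrecPred fun p : ℕ × List Bool => tree p.1 p.2 := by
  have hlen : Primrec fun p : ℕ × List Bool => p.2.length :=
    Primrec.list_length.comp Primrec.snd
  refine all_mem (primrec_hist.comp hlen) ?_
  refine all_lt (hlen.comp Primrec.fst) ?_
  refine all_lt (hlen.comp (Primrec.fst.comp Primrec.fst)) ?_
  -- the point is `((((j, σ), a), y), y')`
  have hj : Primrec fun p : (((ℕ × List Bool) × Act) × ℕ) × ℕ => p.1.1.1.1 :=
    Primrec.fst.comp (Primrec.fst.comp (Primrec.fst.comp Primrec.fst))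
  have hσ : Primrec fun p : (((ℕ × List Bool) × Act) × ℕ) × ℕ => p.1.1.1.2 :=
    Primrec.snd.comp (Primrec.fst.comp (Primrec.fst.comp Primrec.fst))
  have ha : Primrec fun p : (((ℕ × List Bool) × Act) × ℕ) × ℕ => p.1.1.2 :=
    Primrec.snd.comp (Primrec.fst.comp Primrec.fst)
  have hy : Primrec fun p : (((ℕ × List Bool) × Act) × ℕ) × ℕ => p.1.2 :=
    Primrec.snd.comp Primrec.fst
  have hy' : Primrec fun p : (((ℕ × List Bool) × Act) × ℕ) × ℕ => p.2 := Primrec.snd
  have hr : Primrec fun p : (((ℕ × List Bool) × Act) × ℕ) × ℕ => p.1.1.2.1 :=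
    Primrec.fst.comp ha
  have hs : Primrec fun p : (((ℕ × List Bool) × Act) × ℕ) × ℕ => p.1.1.2.2.1 :=
    Primrec.fst.comp (Primrec.snd.comp ha)
  have hu : Primrec fun p : (((ℕ × List Bool) × Act) × ℕ) × ℕ => p.1.1.2.2.2.2 :=
    Primrec.snd.comp (Primrec.snd.comp (Primrec.snd.comp ha))
  have hp : Primrec fun p : (((ℕ × List Bool) × Act) × ℕ) × ℕ =>
      Nat.pair p.1.1.1.1 p.1.2 := Primrec₂.natPair.comp hj hy
  have hp' : Primrec fun p : (((ℕ × List Bool) × Act) × ℕ) × ℕ =>
      Nat.pair p.1.1.1.1 p.2 := Primrec₂.natPair.comp hj hy'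
  refine imp_pred (Primrec.nat_le.comp hr hp) (imp_pred (Primrec.nat_lt.comp hp hs)
    (imp_pred (Primrec.nat_le.comp hr hp') (imp_pred (Primrec.nat_lt.comp hp' hs)
      (iff_pred ?_ ?_))))
  · have h1 : Primrec fun p : (((ℕ × List Bool) × Act) × ℕ) × ℕ =>
        p.1.1.1.2.getD p.1.2 false := (Primrec.list_getD false).comp hσ hy
    have h2 : Primrec fun p : (((ℕ × List Bool) × Act) × ℕ) × ℕ =>
        p.1.1.1.2.getD p.2 false := (Primrec.list_getD false).comp hσ hy'
    exact Primrec.eq.comp h1 h2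
  · exact Primrec.eq.comp (primrec_dig (Primrec.const 2) hu hp)
      (primrec_dig (Primrec.const 2) hu hp')

theorem tree_prefix (j : ℕ) (σ τ : List Bool) (h : τ <+: σ) (hσ : tree j σ) : tree j τ := by
  obtain ⟨ρ, rfl⟩ := h
  intro a ha y hy y' hy' h1 h2 h3 h4
  have hlen : τ.length ≤ (τ ++ ρ).length := by
    rw [List.length_append]
    omega
  have h5 := hσ a (hist_mono hlen ha) y (by omega) y' (by omega) h1 h2 h3 h4
  rw [← h5]
  simp only [List.getD_eq_getElem?_getD]
  rw [List.getElem?_append_left hy, List.getElem?_append_left hy']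

theorem tree_length (j n : ℕ) : ∃ σ, tree j σ ∧ σ.length = n := by
  obtain ⟨u, hu⟩ := exists_ok n
  refine ⟨List.ofFn fun i : Fin n => decide (dig 2 u (Nat.pair j i) = 1), ?_, by simp⟩
  intro a ha y hy y' hy' h1 h2 h3 h4
  rw [List.length_ofFn] at ha hy hy'
  have h5 := hu a ha (Nat.pair j y) h2 (Nat.pair j y') h4 h1 h3 (by simp)
  rw [← h5]
  have h6 : dig 2 u (Nat.pair j y) < 2 := dig_lt (by norm_num)
  have h7 : dig 2 u (Nat.pair j y') < 2 := dig_lt (by norm_num)
  simp only [List.getD_eq_getElem?_getD, List.getElem?_ofFn, hy, hy', dif_pos,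
    Option.getD_some]
  generalize dig 2 u (Nat.pair j y) = α at *
  generalize dig 2 u (Nat.pair j y') = β at *
  interval_cases α <;> interval_cases β <;> simp

/-- The colourings not killed at the stage `s`. -/
def CC (c m r : ℕ) (L : List (ℕ × Code)) (w : ℕ → Bool) (s : ℕ) : Set (ℕ → Fin c) :=
  {g | ∀ d < 2 ^ s, ∀ i : Fin c, (∀ x < s, dig 2 d x = 1 → m ≤ x ∧ g x = i) →
    ∀ b ∈ L, ∀ y < s, ∀ y' < s, r ≤ Nat.pair b.1 y → Nat.pair b.1 y < s →
      r ≤ Nat.pair b.1 y' → Nat.pair b.1 y' < s → Conv s b.2 d y → Conv s b.2 d y' →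
      w (Nat.pair b.1 y) = w (Nat.pair b.1 y')}

theorem isClosed_CC (c m r : ℕ) (L : List (ℕ × Code)) (w : ℕ → Bool) (s : ℕ) :
    IsClosed (CC c m r L w s) := by
  simp only [CC, Set.ofPred_forall]
  refine isClosed_iInter fun d => isClosed_iInter fun _ => isClosed_iInter fun i => ?_
  refine isClosed_imp ?_ isClosed_const
  have e : {g : ℕ → Fin c | ∀ x < s, dig 2 d x = 1 → m ≤ x ∧ g x = i}
      = ⋂ x ∈ Finset.range s, {g : ℕ → Fin c | dig 2 d x = 1 → m ≤ x ∧ g x = i} := by
    ext g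
    simp
  rw [e]
  refine isOpen_biInter_finset fun x _ => ?_
  have h1 : {g : ℕ → Fin c | dig 2 d x = 1 → m ≤ x ∧ g x = i}
      = (fun g : ℕ → Fin c => g x) ⁻¹' {v | dig 2 d x = 1 → m ≤ x ∧ v = i} := rfl
  rw [h1]
  exact (isOpen_discrete _).preimage (continuous_apply x)

theorem CC_anti (c m r : ℕ) (L : List (ℕ × Code)) (w : ℕ → Bool) (s : ℕ) :
    CC c m r L w (s + 1) ⊆ CC c m r L w s := by
  intro g hg d hd i hi b hb y hy y' hy' h1 h2 h3 h4 h5 h6
  refine hg d (hd.trans_le (Nat.pow_le_pow_right (by norm_num) (Nat.le_succ s))) i ?_ b hb y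
    (by omega) y' (by omega) h1 (by omega) h3 (by omega) (conv_mono (Nat.le_succ s) h5)
    (conv_mono (Nat.le_succ s) h6)
  intro x hx hdx
  by_cases hxs : x < s
  · exact hi x hxs hdx
  · rw [dig_zero (by norm_num) hd (not_lt.1 hxs)] at hdx
    exact absurd hdx (by norm_num)

theorem CC_nonempty {c m r : ℕ} (hc : 0 < c) {L : List (ℕ × Code)} {w : ℕ → Bool} {s : ℕ}
    (h : ∀ u < 2 ^ s, (∀ x < s, dig 2 u x = (w x).toNat) → ¬ Kill (c, m, L) r s u) :
    (CC c m r L w s).Nonempty := by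
  obtain ⟨u, hu, hux⟩ := exists_digits 2 (fun x => (w x).toNat)
    (fun x => by cases w x <;> simp) s
  have h1 := h u hu hux
  unfold Kill at h1
  simp only [not_forall] at h1
  obtain ⟨g, hg, hno⟩ := h1
  refine ⟨fun x => ⟨dig c g x, dig_lt hc⟩, ?_⟩
  intro d hd i hi b hb y hy y' hy' h1 h2 h3 h4 h5 h6
  by_contra hne
  apply hno
  refine ⟨d, hd, ⟨i, i.2, fun x hx hdx => ?_⟩, b, hb, y, hy, y', hy', h1, h2, h3, h4, ?_, h5,
    h6⟩
  · obtain ⟨h7, h8⟩ := hi x hx hdx
    exact ⟨h7, congrArg Fin.val h8⟩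
  · intro heq
    rw [hux _ h2, hux _ h4] at heq
    apply hne
    revert heq
    cases w (Nat.pair b.1 y) <;> cases w (Nat.pair b.1 y') <;> simp

theorem exists_colouring {c m r : ℕ} (hc : 0 < c) {L : List (ℕ × Code)} {w : ℕ → Bool} {S : ℕ}
    (h : ∀ s ≥ S, ∀ u < 2 ^ s, (∀ x < s, dig 2 u x = (w x).toNat) →
      ¬ Kill (c, m, L) r s u) :
    ∃ g : ℕ → Fin c, ∀ s ≥ S, g ∈ CC c m r L w s := by
  have hne : (⋂ n, CC c m r L w (S + n)).Nonempty := by
    apply IsCompact.nonempty_iInter_of_sequence_nonempty_isCompact_isClosed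
      (fun n => CC c m r L w (S + n))
    · intro n
      exact CC_anti c m r L w (S + n)
    · intro n
      exact CC_nonempty hc (h (S + n) (Nat.le_add_right S n))
    · exact (isClosed_CC c m r L w (S + 0)).isCompact
    · intro n
      exact isClosed_CC c m r L w (S + n)
  obtain ⟨g, hg⟩ := hne
  refine ⟨g, fun s hs => ?_⟩
  have := Set.mem_iInter.1 hg (s - S)
  rwa [show S + (s - S) = s by omega] at this

/-- The beginning of the windows of a requirement becomes constant. -/
theorem exists_begin (p : ℕ) : ∃ r, (∀ a ∈ All, a.2.2.1 < p → a.2.1 ≤ r) ∧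
    (r = 0 ∨ ∃ a ∈ All, a.2.2.1 < p ∧ a.2.1 = r) := by
  induction p with
  | zero => exact ⟨0, fun a _ h => absurd h (Nat.not_lt_zero _), Or.inl rfl⟩
  | succ p ih =>
    obtain ⟨r, hr, hr'⟩ := ih
    by_cases hp : ∃ a ∈ All, a.2.2.1 = p
    · obtain ⟨b, hb, hbp⟩ := hp
      refine ⟨max r b.2.1, fun a ha hap => ?_, ?_⟩
      · rcases Nat.lt_succ_iff_lt_or_eq.1 hap with h | h
        · exact (hr a ha h).trans (le_max_left _ _)
        · rw [all_unique_req ha hb (h.trans hbp.symm)]
          exact le_max_right _ _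
      · rcases le_total r b.2.1 with h | h
        · rw [max_eq_right h]
          exact Or.inr ⟨b, hb, by omega, rfl⟩
        · rw [max_eq_left h]
          rcases hr' with h0 | ⟨a, ha, hap, has⟩
          · exact Or.inl h0
          · exact Or.inr ⟨a, ha, by omega, has⟩
    · refine ⟨r, fun a ha hap => ?_, ?_⟩
      · rcases Nat.lt_succ_iff_lt_or_eq.1 hap with h | h
        · exact hr a ha h
        · exact absurd ⟨a, ha, h⟩ hp
      · rcases hr' with h0 | ⟨a, ha, hap, has⟩
        · exact Or.inl h0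
        · exact Or.inr ⟨a, ha, by omega, has⟩

/-- The main theorem about the trees: a finite set `J` of trees, with more than `log₂ c`
elements, and one functional for every tree. -/
theorem core (c : ℕ) (f : ℕ → Fin c) (J : Finset ℕ) (hJ : c < 2 ^ J.card) (o : ℕ → Code) :
    ∃ j ∈ J, ∃ H : Set ℕ, H.Infinite ∧ (∃ i, ∀ x ∈ H, f x = i) ∧
      ((Out (o j) H).Infinite → ∃ y ∈ Out (o j) H, ∃ y' ∈ Out (o j) H, ∃ n,
        ∀ σ, tree j σ → σ.length = n → y < n ∧ y' < n ∧
          σ.getD y false ≠ σ.getD y' false) := by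
  classical
  have hc : 0 < c := (f 0).pos
  -- beyond `m` only the live colours occur
  obtain ⟨m, hm⟩ : ∃ m, ∀ x, m ≤ x → {v | f v = f x}.Infinite := by
    have h1 : {x | ¬ {v | f v = f x}.Infinite}.Finite := by
      have h2 : {x | ¬ {v | f v = f x}.Infinite} ⊆
          ⋃ i ∈ {i | ¬ {v | f v = i}.Infinite}, {v | f v = i} := by
        intro x hx
        exact Set.mem_biUnion (show f x ∈ {i | ¬ {v | f v = i}.Infinite} from hx) rfl
      refine Set.Finite.subset (Set.Finite.biUnion (Set.toFinite _) ?_) h2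
      intro i hi
      exact Set.not_infinite.1 hi
    obtain ⟨m, hm⟩ := h1.bddAbove
    refine ⟨m + 1, fun x hx => ?_⟩
    by_contra hcon
    have := hm (show x ∈ {x | ¬ {v | f v = f x}.Infinite} from hcon)
    omega
  obtain ⟨L, hL⟩ : ∃ L : List (ℕ × Code), ∀ b, b ∈ L ↔ b.1 ∈ J ∧ b.2 = o b.1 := by
    refine ⟨J.toList.map fun j => (j, o j), fun b => ?_⟩
    simp only [List.mem_map, Finset.mem_toList]
    constructor
    · rintro ⟨j, hj, rfl⟩
      exact ⟨hj, rfl⟩
    · rintro ⟨h1, h2⟩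
      exact ⟨b.1, h1, by rw [← h2]⟩
  obtain ⟨p, hp⟩ : ∃ p, req p = (c, m, L) := by
    refine ⟨Encodable.encode ((c, m, L) : Req), ?_⟩
    unfold req
    rw [Denumerable.ofNat_encode]
  by_cases hact : ∃ a ∈ All, a.2.2.1 = p
  · -- the requirement acts
    obtain ⟨a, ha, hap⟩ := hact
    have hk : Kill (c, m, L) a.1 a.2.1 a.2.2.2 := by
      have := (all_spec ha).2.1.2.2.2.2
      rwa [hap, hp] at this
    obtain ⟨g, hg, hgx⟩ := exists_digits c (fun x => (f x : ℕ)) (fun x => (f x).2) a.2.1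
    obtain ⟨d, hd, ⟨i, hi, hdi⟩, b, hb, y, hy, y', hy', h1, h2, h3, h4, h5, h6, h7⟩ :=
      hk g hg
    obtain ⟨hbJ, hbo⟩ := (hL b).1 hb
    have hdf : ∀ x < a.2.1, dig 2 d x = 1 → m ≤ x ∧ (f x : ℕ) = i := by
      intro x hx hdx
      obtain ⟨h8, h9⟩ := hdi x hx hdx
      exact ⟨h8, by rw [← hgx x hx]; exact h9⟩
    obtain ⟨i', hi', hdi'⟩ : ∃ i' : Fin c, {v | f v = i'}.Infinite ∧
        ∀ x < a.2.1, dig 2 d x = 1 → f x = i' := by
      by_cases hne : ∃ x < a.2.1, dig 2 d x = 1
      · obtain ⟨x₀, hx₀, hdx₀⟩ := hne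
        refine ⟨f x₀, hm x₀ (hdf x₀ hx₀ hdx₀).1, fun x hx hdx => ?_⟩
        apply Fin.ext
        rw [(hdf x hx hdx).2, (hdf x₀ hx₀ hdx₀).2]
      · exact ⟨f m, hm m le_rfl, fun x hx hdx => absurd ⟨x, hx, hdx⟩ hne⟩
    let H : Set ℕ := {x | (x < a.2.1 ∧ dig 2 d x = 1) ∨ (a.2.1 ≤ x ∧ f x = i')}
    have hHd : ∀ x < a.2.1, x ∈ H ↔ dig 2 d x = 1 := by
      intro x hx
      constructor
      · rintro (h | h)
        · exact h.2
        · exact absurd h.1 (not_le.2 hx)
      · intro h
        exact Or.inl ⟨hx, h⟩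
    rw [hbo] at h6 h7
    refine ⟨b.1, hbJ, H, ?_, ⟨i', ?_⟩, fun _ => ⟨y, out_of_conv h6 hHd, y',
      out_of_conv h7 hHd, a.2.1 + 1, fun σ hσ hlen => ⟨by omega, by omega, fun heq => ?_⟩⟩⟩
    · have h8 : ({v | f v = i'} \ Set.Iio a.2.1).Infinite := hi'.sdiff (Set.finite_Iio _)
      refine h8.mono ?_
      rintro x ⟨hx, hx'⟩
      exact Or.inr ⟨not_lt.1 fun h => hx' (Set.mem_Iio.2 h), hx⟩
    · rintro x (⟨hx, hdx⟩ | ⟨_, hx⟩)
      · exact hdi' x hx hdx
      · exact hx
    · have h8 := hσ a (all_mem_hist ha (by rw [hlen]; exact Nat.lt_succ_self _)) y (by omega)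
        y' (by omega) h1 h2 h3 h4
      exact h5 (h8.1 heq)
  · -- the requirement never acts
    obtain ⟨r, hr, hr'⟩ := exists_begin p
    have hno : ∀ s ≥ max (r + 1) (p + 1), ∀ u < 2 ^ s, OK (hist s) u →
        ¬ Kill (c, m, L) r s u := by
      intro s hs u hu hok hkill
      have hs1 : r + 1 ≤ s := (le_max_left _ _).trans hs
      have hs2 : p + 1 ≤ s := (le_max_right _ _).trans hs
      have hcand : Cand s (hist s) p u r := by
        refine ⟨fun a ha hap => hact ⟨a, ⟨s, ha⟩, hap⟩, fun a ha hap => hr a ⟨s, ha⟩ hap, ?_,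
          hok, by rw [hp]; exact hkill⟩
        rcases hr' with h0 | ⟨a, ha, hap, has⟩
        · exact Or.inl h0
        · exact Or.inr ⟨a, all_mem_hist ha (by omega), hap, has⟩
      obtain ⟨a, ha, has, hap⟩ := act_of_cand (by omega) hu (by omega) hcand
      have haA : a ∈ All := ⟨s + 1, by
        change a ∈ stage s (hist s)
        rw [ha]
        exact List.mem_cons_self⟩
      rcases hap.eq_or_lt with h | h
      · exact hact ⟨a, haA, h⟩
      · have := hr a haA h
        omega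
    let _ : TopologicalSpace (Fin c) := ⊥
    have : DiscreteTopology (Fin c) := ⟨rfl⟩
    obtain ⟨X', hX', hinf, j, hj, l, hsil⟩ := static (κ := Fin c)
      (fun j V => {y | y ∈ Out (o j) V ∧ r ≤ Nat.pair j y}) rep par J
      (by rw [Fintype.card_fin]; exact hJ) (Set.Ici m) (Set.Ici_infinite m) (by
        intro z
        let w : ℕ → Bool := fun x =>
          (z (rep x.unpair.1 x.unpair.2) x.unpair.1 ^^ par x.unpair.1 x.unpair.2)
        have hwok : ∀ s u, (∀ x < s, dig 2 u x = (w x).toNat) → OK (hist s) u := by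
          intro s u hu a ha x hx x' hx' h1 h2 hj
          have hs := (hist_spec ha).1
          have h3 := free_sim z ⟨s, ha⟩ x hx x' hx' h1 h2 hj
          rw [← h3, hu x (hx.trans hs), hu x' (hx'.trans hs)]
          change (w x).toNat = (w x').toNat ↔ w x = w x'
          cases w x <;> cases w x' <;> simp
        obtain ⟨g, hg⟩ := exists_colouring (m := m) (r := r) (L := L) (w := w)
          (S := max (r + 1) (p + 1)) hc
          (fun s hs u hu hux => hno s hs u hu (hwok s u hux))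
        refine ⟨g, ?_⟩
        intro i j hj D hD y hy y' hy' hgD
        obtain ⟨hy1, hy2⟩ := hy
        obtain ⟨hy1', hy2'⟩ := hy'
        obtain ⟨s₁, hs₁⟩ := conv_of_out hy1
        obtain ⟨s₂, hs₂⟩ := conv_of_out hy1'
        obtain ⟨s, hs⟩ : ∃ s, s = max (r + 1) (p + 1) + s₁ + s₂ + Nat.pair j y +
          Nat.pair j y' + D.sup id + 1 := ⟨_, rfl⟩
        have hs3 : max (r + 1) (p + 1) ≤ s := by omega
        have hyp : y ≤ Nat.pair j y := Nat.right_le_pair j y
        have hyp' : y' ≤ Nat.pair j y' := Nat.right_le_pair j y'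
        obtain ⟨d, hd, hdx⟩ := exists_digits 2 (fun x => if x ∈ D then 1 else 0)
          (fun x => by split_ifs <;> norm_num) s
        have hdD : ∀ x < s, x ∈ (↑D : Set ℕ) ↔ dig 2 d x = 1 := by
          intro x hx
          rw [hdx x hx, Finset.mem_coe]
          split_ifs with h <;> simp [h]
        have h1 := hg s hs3 d hd i (fun x hx hdx' => by
          have hxD := (hdD x hx).2 hdx'
          exact ⟨hD hxD, hgD x hxD⟩) (j, o j) ((hL _).2 ⟨hj, rfl⟩) y (by omega) y' (by omega)
          hy2 (by change Nat.pair j y < s; omega) hy2' (by change Nat.pair j y' < s; omega)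
          (hs₁ s (by omega) d hdD) (hs₂ s (by omega) d hdD)
        change w (Nat.pair j y) = w (Nat.pair j y') at h1
        simp only [w, Nat.unpair_pair] at h1
        exact h1)
    -- a colour which is infinite on `X'`
    obtain ⟨i, hi⟩ : ∃ i, {x | x ∈ X' ∧ f x = i}.Infinite := by
      by_contra hcon
      simp only [not_exists, Set.not_infinite] at hcon
      apply hinf
      refine (Set.finite_iUnion hcon).subset ?_
      intro x hx
      exact Set.mem_iUnion.2 ⟨f x, hx, rfl⟩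
    refine ⟨j, hj, {x | x ∈ X' ∧ f x = i}, hi, ⟨i, fun x hx => hx.2⟩, fun hO => ?_⟩
    exfalso
    have hO' : {y | y ∈ Out (o j) {x | x ∈ X' ∧ f x = i} ∧ r ≤ Nat.pair j y}.Infinite := by
      have h1 := hO.sdiff (Set.finite_Iio r)
      refine h1.mono ?_
      rintro y ⟨hy, hy'⟩
      refine ⟨hy, ?_⟩
      have h2 : r ≤ y := not_lt.1 fun h => hy' (Set.mem_Iio.2 h)
      exact h2.trans (Nat.right_le_pair j y)
    obtain ⟨y, hy, hyr⟩ := hO'.nonempty
    have hfin : {y' | rep j y' ≤ max (rep j y) l}.Finite := by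
      have e : {y' | rep j y' ≤ max (rep j y) l}
          = ⋃ v ∈ Set.Iic (max (rep j y) l), {y' | rep j y' = v} := by
        ext y'
        simp
      rw [e]
      exact Set.Finite.biUnion (Set.finite_Iic _) fun v _ => rep_finite j v
    obtain ⟨y', ⟨hy', hyr'⟩, hbig⟩ := (hO'.sdiff hfin).nonempty
    have hbig' : max (rep j y) l < rep j y' := not_le.1 fun h => hbig h
    obtain ⟨k₁, hk₁⟩ := out_cont _ _ _ hy
    obtain ⟨k₂, hk₂⟩ := out_cont _ _ _ hy'
    let D : Finset ℕ := (Finset.range (max k₁ k₂)).filter fun x => x ∈ X' ∧ f x = i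
    have hD : (↑D : Set ℕ) ⊆ X' := by
      intro x hx
      exact (Finset.mem_filter.1 (Finset.mem_coe.1 hx)).2.1
    have hagree : ∀ x < max k₁ k₂, x ∈ (↑D : Set ℕ) ↔ x ∈ {x | x ∈ X' ∧ f x = i} := by
      intro x hx
      constructor
      · intro h
        exact (Finset.mem_filter.1 (Finset.mem_coe.1 h)).2
      · intro h
        exact Finset.mem_coe.2 (Finset.mem_filter.2 ⟨Finset.mem_range.2 hx, h⟩)
    have h3 := hsil D hD y
      ⟨hk₁ _ fun x hx => hagree x (lt_of_lt_of_le hx (le_max_left _ _)), hyr⟩ y'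
      ⟨hk₂ _ fun x hx => hagree x (lt_of_lt_of_le hx (le_max_right _ _)), hyr'⟩
      ((le_max_left _ _).trans_lt hbig')
    have h4 := (le_max_right (rep j y) l).trans_lt hbig'
    omega

end Pool.Agent.Helper20.RU
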